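import Pool.Agent.N964.GW.Stm

/-!
# Positivity of the kernel in the left half-plane (`S_pos`)

Project GW (helper964), part GW/P by helper862.
-/

set_option autoImplicit false
set_option linter.all false

namespace Pool.Agent.N862.GW

open Complex Filter Topology Bornology Asymptotics
open Pool.Agent.N964.GW

theorem cosh_pos {l s : ℝ} (hl : 0 < l) (hs : 0 < s) : 0 < Real.cosh (l * s) - 1 := by
  have h : 1 < Real.cosh (l * s) := by
    rw [Real.one_lt_cosh]
    positivity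
  linarith

/-- the entire function `Hn` -/
theorem Hn_diff (l s : ℝ) : Differentiable ℂ (Hn l s) := by
  have h1 : DifferentiableOn ℂ (dslope (fun u : ℂ => cexp (l * u)) 0) Set.univ := by
    rw [Complex.differentiableOn_dslope Filter.univ_mem]
    exact (Differentiable.cexp (by fun_prop)).differentiableOn
  rw [differentiableOn_univ] at h1
  have h2 : Differentiable ℂ (fun w : ℂ => dslope (fun u : ℂ => cexp (l * u)) 0 (w + s)) :=
    h1.comp (differentiable_id.add_const _)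
  unfold Hn
  exact ((h2.const_mul _).sub_const _).div_const _

/-- the formula away from `-s` -/
theorem Hn_eq {l s : ℝ} (hl : 0 < l) (hs : 0 < s) {w : ℂ} (hw : w ≠ -s) :
    Hn l s w = (s * (cexp (l * w) - 1) - w * ((1 - Real.exp (-(l * s)) : ℝ) : ℂ)) /
      ((w + s) * ((Real.cosh (l * s) - 1 : ℝ) : ℂ)) := by
  have h0 : w + s ≠ 0 := fun h => hw (eq_neg_of_add_eq_zero_left h)
  have hc : ((Real.cosh (l * s) - 1 : ℝ) : ℂ) ≠ 0 := by
    exact_mod_cast (cosh_pos hl hs).ne'
  unfold Hn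
  rw [dslope_of_ne _ h0, slope_def_field]
  simp only [mul_zero, Complex.exp_zero, sub_zero]
  have h1 : cexp (l * (w + s)) = cexp (l * w) * cexp (l * s) := by
    rw [← Complex.exp_add]
    ring_nf
  have h2 : ((Real.exp (-(l * s)) : ℝ) : ℂ) * cexp (l * s) = 1 := by
    rw [Complex.ofReal_exp, ← Complex.exp_add]
    push_cast
    rw [neg_add_cancel, Complex.exp_zero]
  rw [h1]
  have h3 : ((s * Real.exp (-(l * s)) : ℝ) : ℂ) = s * ((Real.exp (-(l * s)) : ℝ) : ℂ) := by
    push_cast; ring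
  have h4 : ((1 - Real.exp (-(l * s)) : ℝ) : ℂ) = 1 - ((Real.exp (-(l * s)) : ℝ) : ℂ) := by
    push_cast; ring
  rw [h3, h4]
  generalize ((Real.exp (-(l * s)) : ℝ) : ℂ) = E at h2
  generalize cexp (l * s) = P at h2
  generalize cexp (l * w) = Q
  generalize ((Real.cosh (l * s) - 1 : ℝ) : ℂ) = c at hc
  rw [← div_div]
  congr 1
  rw [eq_div_iff h0, sub_mul, mul_assoc, div_mul_cancel₀ _ h0]
  linear_combination ((s : ℂ) * Q) * h2

/-- the real part on the imaginary axis -/
theorem re_axis {l s : ℝ} (hl : 0 < l) (hs : 0 < s) (y : ℝ) :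
    0 ≤ (Hn l s (y * I) / (y * I - s)).re := by
  have hne : (y * I : ℂ) ≠ -s := by
    intro h
    have := congrArg Complex.re h
    simp at this
    linarith
  have hc := cosh_pos hl hs
  rw [Hn_eq hl hs hne, div_div]
  have hden : ((y * I + s) * ((Real.cosh (l * s) - 1 : ℝ) : ℂ)) * (y * I - s) =
      ((-((y ^ 2 + s ^ 2) * (Real.cosh (l * s) - 1)) : ℝ) : ℂ) := by
    push_cast
    linear_combination ((y : ℂ) ^ 2 * (Complex.cosh (l * s) - 1)) * Complex.I_sq
  rw [hden, Complex.div_ofReal_re]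
  have hnum : ((s : ℂ) * (cexp (l * (y * I)) - 1) -
      y * I * ((1 - Real.exp (-(l * s)) : ℝ) : ℂ)).re = s * (Real.cos (l * y) - 1) := by
    have h1 : cexp (l * (y * I)) = cexp (((l * y : ℝ) : ℂ) * I) := by
      push_cast
      ring_nf
    rw [h1, Complex.sub_re, Complex.re_ofReal_mul, Complex.sub_re, Complex.exp_ofReal_mul_I_re,
      Complex.one_re]
    have h2 : ((y : ℂ) * I * ((1 - Real.exp (-(l * s)) : ℝ) : ℂ)).re = 0 := by
      rw [Complex.re_mul_ofReal]
      simp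
    rw [h2, sub_zero]
  rw [hnum]
  have h3 : s * (Real.cos (l * y) - 1) ≤ 0 := by
    have := Real.cos_le_one (l * y)
    nlinarith
  have h4 : -((y ^ 2 + s ^ 2) * (Real.cosh (l * s) - 1)) < 0 := by
    have : 0 < y ^ 2 + s ^ 2 := by positivity
    have := mul_pos this hc
    linarith
  exact div_nonneg_of_nonpos h3 h4.le

/-- the size at infinity -/
theorem size {l s : ℝ} (hl : 0 < l) (hs : 0 < s) {w : ℂ} (hw : w.re ≤ 0)
    (hb : 2 * (1 + s) ≤ ‖w‖) :
    ‖Hn l s w / (w - s)‖ ≤ 2 / (Real.cosh (l * s) - 1) := by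
  have hc := cosh_pos hl hs
  have hn0 : 0 < ‖w‖ := by linarith
  have h1 : ‖w‖ - s ≤ ‖w + s‖ := by
    have := norm_sub_norm_le w (-(s : ℂ))
    rw [sub_neg_eq_add, norm_neg, Complex.norm_real, Real.norm_of_nonneg hs.le] at this
    exact this
  have h2 : ‖w‖ - s ≤ ‖w - s‖ := by
    have := norm_sub_norm_le w (s : ℂ)
    rw [Complex.norm_real, Real.norm_of_nonneg hs.le] at this
    exact this
  have h3 : ‖w‖ / 2 ≤ ‖w + s‖ := by linarith
  have h4 : ‖w‖ / 2 ≤ ‖w - s‖ := by linarith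
  have hne : w ≠ -s := by
    rintro rfl
    rw [neg_add_cancel, norm_zero] at h3
    linarith
  rw [Hn_eq hl hs hne, div_div, norm_div, norm_mul, norm_mul, Complex.norm_real,
    Real.norm_of_nonneg hc.le]
  have hE : Real.exp (-(l * s)) ≤ 1 := by
    rw [Real.exp_le_one_iff]
    have : 0 < l * s := by positivity
    linarith
  have hE0 := Real.exp_pos (-(l * s))
  have h5 : ‖(s : ℂ) * (cexp (l * w) - 1) - w * ((1 - Real.exp (-(l * s)) : ℝ) : ℂ)‖ ≤
      2 * ‖w‖ := by
    refine (norm_sub_le _ _).trans ?_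
    rw [norm_mul, norm_mul, Complex.norm_real, Complex.norm_real, Real.norm_of_nonneg hs.le,
      Real.norm_of_nonneg (by linarith : (0 : ℝ) ≤ 1 - Real.exp (-(l * s)))]
    have h6 : ‖cexp (l * w) - 1‖ ≤ 2 := by
      refine (norm_sub_le _ _).trans ?_
      rw [norm_one, Complex.norm_exp, Complex.re_ofReal_mul]
      have : Real.exp (l * w.re) ≤ 1 := by
        rw [Real.exp_le_one_iff]
        exact mul_nonpos_of_nonneg_of_nonpos hl.le hw
      linarith
    have h7 : s * ‖cexp (l * w) - 1‖ ≤ s * 2 := mul_le_mul_of_nonneg_left h6 hs.le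
    have h8 : ‖w‖ * (1 - Real.exp (-(l * s))) ≤ ‖w‖ * 1 :=
      mul_le_mul_of_nonneg_left (by linarith) hn0.le
    linarith
  have h9 : 0 < ‖w + s‖ := by linarith
  have h10 : 0 < ‖w - s‖ := by linarith
  have h11 : 0 < ‖w + ↑s‖ * (Real.cosh (l * s) - 1) * ‖w - ↑s‖ := by positivity
  rw [div_le_div_iff₀ h11 hc]
  have h12 : ‖w‖ ≤ ‖w + s‖ * ‖w - s‖ := by
    have h13 : ‖w‖ / 2 * (‖w‖ / 2) ≤ ‖w + s‖ * ‖w - s‖ :=
      mul_le_mul h3 h4 (by positivity) h9.le
    have h14 : ‖w‖ ≤ ‖w‖ / 2 * (‖w‖ / 2) ∨ ‖w‖ ≤ 4 := by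
      by_cases h15 : ‖w‖ ≤ 4
      · exact Or.inr h15
      · left
        push Not at h15
        nlinarith
    rcases h14 with h14 | h14
    · exact h14.trans h13
    · -- use the sharper bounds
      have h16 : (‖w‖ - s) * (‖w‖ - s) ≤ ‖w + s‖ * ‖w - s‖ :=
        mul_le_mul h1 h2 (by linarith) h9.le
      have h17 : ‖w‖ ≤ (‖w‖ - s) * (‖w‖ - s) := by nlinarith
      exact h17.trans h16
  calc ‖(s : ℂ) * (cexp (l * w) - 1) - w * ((1 - Real.exp (-(l * s)) : ℝ) : ℂ)‖ *
        (Real.cosh (l * s) - 1) ≤ (2 * ‖w‖) * (Real.cosh (l * s) - 1) :=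
        mul_le_mul_of_nonneg_right h5 hc.le
    _ ≤ (2 * (‖w + s‖ * ‖w - s‖)) * (Real.cosh (l * s) - 1) :=
        mul_le_mul_of_nonneg_right (by linarith) hc.le
    _ = 2 * (‖w + ↑s‖ * (Real.cosh (l * s) - 1) * ‖w - ↑s‖) := by ring

theorem pos : S_pos := by
  intro l s hl hs w hw
  have hc := cosh_pos hl hs
  obtain ⟨f, hf⟩ : ∃ f : ℂ → ℂ, f = fun z => cexp (-(Hn l s (-z) / (-z - s))) := ⟨_, rfl⟩
  have hfn : ∀ z : ℂ, ‖f z‖ = Real.exp (-(Hn l s (-z) / (-z - s)).re) := by
    intro z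
    rw [hf]
    simp only
    rw [Complex.norm_exp, Complex.neg_re]
  have hdiff : ∀ z : ℂ, 0 ≤ z.re → DifferentiableAt ℂ f z := by
    intro z hz
    rw [hf]
    have hne : -z - (s : ℂ) ≠ 0 := by
      intro h
      have := congrArg Complex.re h
      simp at this
      linarith
    have h1 : DifferentiableAt ℂ (fun z : ℂ => Hn l s (-z)) z :=
      ((Hn_diff l s).comp differentiable_neg).differentiableAt
    have h2 : DifferentiableAt ℂ (fun z : ℂ => -z - (s : ℂ)) z := by fun_prop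
    exact ((h1.div h2 hne).neg).cexp
  have hclos : closure {z : ℂ | 0 < z.re} = {z : ℂ | 0 ≤ z.re} := Complex.closure_setOf_lt_re 0
  have hd : DiffContOnCl ℂ f {z : ℂ | 0 < z.re} := by
    refine ⟨fun z hz => (hdiff z (le_of_lt hz)).differentiableWithinAt, fun z hz => ?_⟩
    rw [hclos] at hz
    exact (hdiff z hz).continuousAt.continuousWithinAt
  have hbd : ∀ z : ℂ, 0 ≤ z.re → 2 * (1 + s) ≤ ‖z‖ →
      ‖f z‖ ≤ Real.exp (2 / (Real.cosh (l * s) - 1)) := by
    intro z hz hz2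
    rw [hfn, Real.exp_le_exp]
    have h1 := size hl hs (w := -z) (by simpa using hz) (by rwa [norm_neg])
    have h2 := Complex.abs_re_le_norm (Hn l s (-z) / (-z - s))
    have h3 := neg_abs_le (Hn l s (-z) / (-z - s)).re
    linarith
  have hexp : ∃ c < (2 : ℝ), ∃ B, f =O[cobounded ℂ ⊓ 𝓟 {z | 0 < z.re}]
      fun z => Real.exp (B * ‖z‖ ^ c) := by
    refine ⟨0, by norm_num, 0, ?_⟩
    refine IsBigO.of_bound (Real.exp (2 / (Real.cosh (l * s) - 1))) ?_
    rw [eventually_inf_principal]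
    have h1 : ∀ᶠ z : ℂ in cobounded ℂ, 2 * (1 + s) ≤ ‖z‖ :=
      tendsto_norm_cobounded_atTop.eventually_ge_atTop _
    filter_upwards [h1] with z hz hz0
    have h2 := hbd z (le_of_lt hz0) hz
    simpa using h2
  have hre : IsBoundedUnder (· ≤ ·) atTop fun x : ℝ => ‖f x‖ := by
    refine ⟨Real.exp (2 / (Real.cosh (l * s) - 1)), ?_⟩
    rw [eventually_map]
    filter_upwards [eventually_ge_atTop (2 * (1 + s))] with x hx
    have hx0 : 0 ≤ x := by linarith
    refine hbd x (by simpa using hx0) ?_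
    rw [Complex.norm_real, Real.norm_of_nonneg hx0]
    exact hx
  have him : ∀ x : ℝ, ‖f (x * I)‖ ≤ 1 := by
    intro x
    rw [hfn, Real.exp_le_one_iff]
    have h1 := re_axis hl hs (-x)
    have h2 : (((-x : ℝ) : ℂ) * I) = -((x : ℂ) * I) := by push_cast; ring
    rw [h2] at h1
    linarith
  have h1 := PhragmenLindelof.right_half_plane_of_bounded_on_real (z := -w) hd hexp hre him
    (by simpa using hw)
  rw [hfn, Real.exp_le_one_iff, neg_neg] at h1
  linarith

end Pool.Agent.N862.GW
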